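import Mathlib
import Pool.Agent.VM5.Stmts

/-!
# DN3: the number of `(d, n)` (squad VMF)
-/

set_option autoImplicit false

namespace Pool.Agent.VM5.H24

open Pool.Agent.VM (Nr)
open Pool.Agent.VM5

theorem fact_finite (m : ℤ) (hm : m ≠ 0) :
    Finite {x : ℤ × ℤ × ℤ × ℤ // x.1 * x.2.1 * x.2.2.1 * x.2.2.2 = m} := by
  have hsub : {x : ℤ × ℤ × ℤ × ℤ | x.1 * x.2.1 * x.2.2.1 * x.2.2.2 = m} ⊆
      (Set.Icc (-|m|) |m| ×ˢ Set.Icc (-|m|) |m| ×ˢ Set.Icc (-|m|) |m| ×ˢ Set.Icc (-|m|) |m|) := by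
    rintro ⟨a, b, c, d⟩ h
    simp only [Set.mem_setOf_eq] at h
    have key : ∀ x : ℤ, x ∣ m → x ∈ Set.Icc (-|m|) |m| := by
      intro x hx
      have h1 := Int.natAbs_le_of_dvd_ne_zero hx hm
      rw [Set.mem_Icc, ← abs_le, Int.abs_eq_natAbs, Int.abs_eq_natAbs]
      exact_mod_cast h1
    refine ⟨key a ⟨b * c * d, by rw [← h]; ring⟩, key b ⟨a * c * d, by rw [← h]; ring⟩,
      key c ⟨a * b * d, by rw [← h]; ring⟩, key d ⟨a * b * c, by rw [← h]; ring⟩⟩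
  have hfin : (Set.Icc (-|m|) |m| ×ˢ Set.Icc (-|m|) |m| ×ˢ Set.Icc (-|m|) |m| ×ˢ
      Set.Icc (-|m|) |m| : Set (ℤ × ℤ × ℤ × ℤ)).Finite :=
    (Set.finite_Icc _ _).prod ((Set.finite_Icc _ _).prod ((Set.finite_Icc _ _).prod
      (Set.finite_Icc _ _)))
  exact (hfin.subset hsub).to_subtype

open scoped Classical in
/-- DN3 -/
theorem dn3 (cnu : CnuStmt) (dvb : DvbStmt) : Dn3Stmt := by
  intro ε hε
  obtain ⟨C₁, hC₁, hdv⟩ := dvb (ε / 3) (by positivity)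
  refine ⟨C₁ * (80 : ℝ) ^ (ε / 3) * 163296, by positivity, ?_⟩
  intro N D K U G t b S hP i hi1 hi2
  obtain ⟨h4, h5, h10, h8, h5000, hG1, hGD, hNU, hUN, hU1, hgcd, htb, hS⟩ := hP
  set A : Finset (ℕ × ℤ) := (S ×ˢ Finset.Icc (-((N : ℤ) ^ 2)) ((N : ℤ) ^ 2)).filter
    (fun x => x.2 ≠ 0 ∧ Nr (t * ((20 * (x.1 : ℤ) ^ i * x.2 : ℤ) : ℝ))
      (1 / ((D : ℝ) ^ (3 - i) * (K : ℝ) ^ 3))) with hA
  have hcardA : Nat.card {x : ℕ × ℤ // x.1 ∈ S ∧ x.2 ≠ 0 ∧ |x.2| ≤ (N : ℤ) ^ 2 ∧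
        Nr (t * ((20 * (x.1 : ℤ) ^ i * x.2 : ℤ) : ℝ))
          (1 / ((D : ℝ) ^ (3 - i) * (K : ℝ) ^ 3))} = A.card := by
    apply Nat.subtype_card
    intro x
    rw [hA, Finset.mem_filter, Finset.mem_product, Finset.mem_Icc, ← abs_le]
    tauto
  rw [hcardA]
  set X : ℕ := 20 * (2 * D) ^ i * N ^ 2 with hX
  set η : ℝ := 1 / ((D : ℝ) ^ (3 - i) * (K : ℝ) ^ 3) with hη
  set B : Finset ℤ := (Finset.Icc (-(X : ℤ)) (X : ℤ)).filter
    (fun m => m ≠ 0 ∧ Nr (t * (m : ℝ)) η) with hB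
  have hD0 : (0 : ℝ) < (D : ℝ) := by
    have : 0 < D := by omega
    exact_mod_cast this
  have hD1 : (1 : ℝ) ≤ (D : ℝ) := by
    have : 1 ≤ D := by omega
    exact_mod_cast this
  have hK0 : (0 : ℝ) < (K : ℝ) := by
    have : 0 < K := by omega
    exact_mod_cast this
  have hN1 : 1 ≤ N := by
    have : 1 ≤ D ^ 8 := Nat.one_le_pow _ _ (by omega)
    omega
  have hN0 : (0 : ℝ) < (N : ℝ) := by exact_mod_cast hN1
  have hU0 : (0 : ℝ) < (U : ℝ) := by exact_mod_cast hU1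
  have hη0 : 0 ≤ η := by positivity
  -- the number of `m`
  have hBc : (B.card : ℝ) ≤ 163296 * ((D : ℝ) ^ i * G) := by
    have h1 := cnu t η b U X hU1 hgcd htb hη0
    have h2 : (B.card : ℝ) ≤ (Nat.card {m : ℤ // |m| ≤ (X : ℤ) ∧ Nr (t * (m : ℝ)) η} : ℝ) := by
      have h3 : Nat.card {m : ℤ // |m| ≤ (X : ℤ) ∧ Nr (t * (m : ℝ)) η} =
          ((Finset.Icc (-(X : ℤ)) (X : ℤ)).filter (fun m : ℤ => Nr (t * (m : ℝ)) η)).card := by
        apply Nat.subtype_card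
        intro m
        rw [Finset.mem_filter, Finset.mem_Icc, ← abs_le]
      rw [h3]
      have h4 : B.card ≤
          ((Finset.Icc (-(X : ℤ)) (X : ℤ)).filter (fun m : ℤ => Nr (t * (m : ℝ)) η)).card := by
        apply Finset.card_le_card
        intro m hm
        rw [hB, Finset.mem_filter] at hm
        rw [Finset.mem_filter]
        exact ⟨hm.1, hm.2.2⟩
      exact_mod_cast h4
    refine (h2.trans h1).trans ?_
    have hDi : (1 : ℝ) ≤ (D : ℝ) ^ i := one_le_pow₀ hD1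
    have hDG : (1 : ℝ) ≤ (D : ℝ) ^ i * G := by nlinarith
    have h2i : (2 : ℝ) ^ i ≤ 4 := by
      interval_cases i <;> norm_num
    have hXr : (X : ℝ) ≤ 80 * (D : ℝ) ^ i * (N : ℝ) ^ 2 := by
      rw [hX]
      push_cast
      rw [mul_pow]
      have h3 : (0 : ℝ) ≤ (D : ℝ) ^ i * (N : ℝ) ^ 2 := by positivity
      nlinarith
    have hXU : (X : ℝ) / (U : ℝ) ≤ 80 * ((D : ℝ) ^ i * G) := by
      rw [div_le_iff₀ hU0]
      have h3 : 80 * (D : ℝ) ^ i * (N : ℝ) ^ 2 ≤ 80 * (D : ℝ) ^ i * ((U : ℝ) * G) :=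
        mul_le_mul_of_nonneg_left hNU (by positivity)
      have h4 : 80 * (D : ℝ) ^ i * ((U : ℝ) * G) = 80 * ((D : ℝ) ^ i * G) * (U : ℝ) := by ring
      linarith
    have hηb : η ≤ 125 * (D : ℝ) ^ i / (N : ℝ) ^ 3 := by
      rw [hη, div_le_div_iff₀ (by positivity) (by positivity), one_mul]
      have h3 : (N : ℝ) ≤ 5 * (D : ℝ) * (K : ℝ) := by exact_mod_cast h5
      have h4 : (N : ℝ) ^ 3 ≤ (5 * (D : ℝ) * (K : ℝ)) ^ 3 :=
        pow_le_pow_left₀ hN0.le h3 3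
      have h6 : (D : ℝ) ^ i * (D : ℝ) ^ (3 - i) = (D : ℝ) ^ 3 := by
        rw [← pow_add]
        congr 1
        omega
      have h7 : 125 * (D : ℝ) ^ i * ((D : ℝ) ^ (3 - i) * (K : ℝ) ^ 3) =
          (5 * (D : ℝ) * (K : ℝ)) ^ 3 := by
        calc 125 * (D : ℝ) ^ i * ((D : ℝ) ^ (3 - i) * (K : ℝ) ^ 3) =
            125 * ((D : ℝ) ^ i * (D : ℝ) ^ (3 - i)) * (K : ℝ) ^ 3 := by ring
          _ = (5 * (D : ℝ) * (K : ℝ)) ^ 3 := by rw [h6]; ring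
      rw [h7]
      exact h4
    have hηU : η * (U : ℝ) ≤ 125 * ((D : ℝ) ^ i * G) := by
      calc η * (U : ℝ) ≤ (125 * (D : ℝ) ^ i / (N : ℝ) ^ 3) * ((N : ℝ) ^ 3 * G) :=
            mul_le_mul hηb hUN hU0.le (by positivity)
        _ = 125 * ((D : ℝ) ^ i * G) := by field_simp
    have hXη : (X : ℝ) * η ≤ 10000 := by
      have h3 : (X : ℝ) * η ≤ (80 * (D : ℝ) ^ i * (N : ℝ) ^ 2) *
          (125 * (D : ℝ) ^ i / (N : ℝ) ^ 3) := mul_le_mul hXr hηb hη0 (by positivity)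
      refine h3.trans ?_
      have h6 : (80 * (D : ℝ) ^ i * (N : ℝ) ^ 2) * (125 * (D : ℝ) ^ i / (N : ℝ) ^ 3) =
          10000 * (((D : ℝ) ^ i * (D : ℝ) ^ i) / (N : ℝ)) := by
        field_simp
        ring
      rw [h6]
      have h7 : ((D : ℝ) ^ i * (D : ℝ) ^ i) / (N : ℝ) ≤ 1 := by
        rw [div_le_one hN0, ← pow_add]
        have h9 : (D : ℝ) ^ (i + i) ≤ (D : ℝ) ^ 8 := pow_le_pow_right₀ hD1 (by omega)
        have h11 : (D : ℝ) ^ 8 ≤ (N : ℝ) := by exact_mod_cast h8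
        exact h9.trans h11
      linarith
    have h3 : ((X : ℝ) / (U : ℝ) + 1) * (η * (U : ℝ) + 1) =
        (X : ℝ) * η + (X : ℝ) / (U : ℝ) + η * (U : ℝ) + 1 := by
      field_simp
      ring
    have h4 : 16 * ((X : ℝ) / (U : ℝ) + 1) * (η * (U : ℝ) + 1) =
        16 * ((X : ℝ) * η + (X : ℝ) / (U : ℝ) + η * (U : ℝ) + 1) := by
      rw [mul_assoc, h3]
    rw [h4]
    linarith
  -- the fibres
  have hXpos : (0 : ℝ) < (X : ℝ) := by
    have : 0 < X := by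
      rw [hX]
      have : 0 < 2 * D := by omega
      positivity
    exact_mod_cast this
  have hmain := Finset.card_le_mul_card_image_of_maps_to
    (f := fun x : ℕ × ℤ => 20 * (x.1 : ℤ) ^ i * x.2) (s := A) (t := B)
    (fun x hx => by
      rw [hA, Finset.mem_filter, Finset.mem_product, Finset.mem_Icc, ← abs_le] at hx
      obtain ⟨⟨hx1, hx2⟩, hx3, hx4⟩ := hx
      obtain ⟨hd1, hd2, hdp⟩ := hS x.1 hx1
      rw [hB, Finset.mem_filter, Finset.mem_Icc, ← abs_le]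
      refine ⟨?_, ?_, hx4⟩
      · rw [abs_mul, abs_mul, abs_of_nonneg (by norm_num : (0 : ℤ) ≤ 20),
          abs_of_nonneg (by positivity : (0 : ℤ) ≤ (x.1 : ℤ) ^ i), hX]
        push_cast
        apply mul_le_mul _ hx2 (abs_nonneg _) (by positivity)
        apply mul_le_mul_of_nonneg_left _ (by norm_num)
        apply pow_le_pow_left₀ (by positivity)
        exact_mod_cast hd2
      · have h1 : (x.1 : ℤ) ≠ 0 := by
          have : 0 < x.1 := by omega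
          omega
        exact mul_ne_zero (mul_ne_zero (by norm_num) (pow_ne_zero _ h1)) hx3)
    (⌊C₁ * (X : ℝ) ^ (ε / 3)⌋₊) (fun m hm => by
      rw [hB, Finset.mem_filter, Finset.mem_Icc, ← abs_le] at hm
      obtain ⟨hm1, hm0, -⟩ := hm
      apply Nat.le_floor
      have h1 := hdv m hm0
      have hfin := fact_finite m hm0
      have h2 : (A.filter (fun x : ℕ × ℤ => 20 * (x.1 : ℤ) ^ i * x.2 = m)).card ≤
          Nat.card {x : ℤ × ℤ × ℤ × ℤ // x.1 * x.2.1 * x.2.2.1 * x.2.2.2 = m} := by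
        rw [← Fintype.card_coe, ← Nat.card_eq_fintype_card]
        refine Nat.card_le_card_of_injective
          (fun x => (⟨(20, (x.1.1 : ℤ) ^ i, x.1.2, 1), by
            have hx := x.2
            rw [Finset.mem_filter] at hx
            simp only
            rw [mul_one]
            exact hx.2⟩ : {x : ℤ × ℤ × ℤ × ℤ // x.1 * x.2.1 * x.2.2.1 * x.2.2.2 = m})) ?_
        rintro ⟨⟨a, n⟩, ha⟩ ⟨⟨a', n'⟩, ha'⟩ heq
        simp only [Subtype.mk.injEq, Prod.mk.injEq, true_and, and_true] at heq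
        obtain ⟨h3, h4⟩ := heq
        have h5 : a = a' := by
          have h6 : a ^ i = a' ^ i := by exact_mod_cast h3
          exact Nat.pow_left_injective (by omega : i ≠ 0) h6
        subst h5
        subst h4
        rfl
      have h3 : (((A.filter (fun x : ℕ × ℤ => 20 * (x.1 : ℤ) ^ i * x.2 = m)).card : ℕ) : ℝ) ≤
          (Nat.card {x : ℤ × ℤ × ℤ × ℤ // x.1 * x.2.1 * x.2.2.1 * x.2.2.2 = m} : ℝ) := by
        exact_mod_cast h2
      refine (h3.trans h1).trans ?_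
      apply mul_le_mul_of_nonneg_left _ hC₁.le
      apply Real.rpow_le_rpow (abs_nonneg _) _ (by positivity)
      exact_mod_cast hm1)
  have hfloor : ((⌊C₁ * (X : ℝ) ^ (ε / 3)⌋₊ : ℕ) : ℝ) ≤ C₁ * (X : ℝ) ^ (ε / 3) :=
    Nat.floor_le (by positivity)
  have hX3 : (X : ℝ) ^ (ε / 3) ≤ (80 : ℝ) ^ (ε / 3) * (N : ℝ) ^ ε := by
    have h2i : (2 : ℝ) ^ i ≤ 4 := by
      interval_cases i <;> norm_num
    have hDi : (D : ℝ) ^ i ≤ (N : ℝ) := by
      have h1 : (D : ℝ) ^ i ≤ (D : ℝ) ^ 8 := pow_le_pow_right₀ hD1 (by omega)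
      have h2 : (D : ℝ) ^ 8 ≤ (N : ℝ) := by exact_mod_cast h8
      exact h1.trans h2
    have h1 : (X : ℝ) ≤ 80 * (N : ℝ) ^ (3 : ℝ) := by
      rw [hX]
      push_cast
      rw [mul_pow, show (3 : ℝ) = ((3 : ℕ) : ℝ) by norm_num, Real.rpow_natCast]
      have h3 : (2 : ℝ) ^ i * (D : ℝ) ^ i ≤ 4 * (N : ℝ) :=
        mul_le_mul h2i hDi (by positivity) (by norm_num)
      calc 20 * ((2 : ℝ) ^ i * (D : ℝ) ^ i) * (N : ℝ) ^ 2 ≤ 20 * (4 * (N : ℝ)) * (N : ℝ) ^ 2 := by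
            apply mul_le_mul_of_nonneg_right _ (by positivity)
            exact mul_le_mul_of_nonneg_left h3 (by norm_num)
        _ = 80 * (N : ℝ) ^ 3 := by ring
    have h2 : (X : ℝ) ^ (ε / 3) ≤ (80 * (N : ℝ) ^ (3 : ℝ)) ^ (ε / 3) :=
      Real.rpow_le_rpow hXpos.le h1 (by positivity)
    rw [Real.mul_rpow (by norm_num) (by positivity), ← Real.rpow_mul hN0.le] at h2
    have h3 : (3 : ℝ) * (ε / 3) = ε := by ring
    rw [h3] at h2
    exact h2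
  have hA1 : (A.card : ℝ) ≤ ((⌊C₁ * (X : ℝ) ^ (ε / 3)⌋₊ : ℕ) : ℝ) * (B.card : ℝ) := by
    exact_mod_cast hmain
  refine hA1.trans ?_
  have hB0 : (0 : ℝ) ≤ (B.card : ℝ) := Nat.cast_nonneg _
  calc ((⌊C₁ * (X : ℝ) ^ (ε / 3)⌋₊ : ℕ) : ℝ) * (B.card : ℝ) ≤
        (C₁ * ((80 : ℝ) ^ (ε / 3) * (N : ℝ) ^ ε)) * (163296 * ((D : ℝ) ^ i * G)) := by
        apply mul_le_mul (hfloor.trans (mul_le_mul_of_nonneg_left hX3 hC₁.le)) hBc hB0
        positivity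
    _ = C₁ * (80 : ℝ) ^ (ε / 3) * 163296 * (N : ℝ) ^ ε * (D : ℝ) ^ i * G := by ring

end Pool.Agent.VM5.H24
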